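import Pool.Agent.Helper68.BD.Ker

/-!
# Andreief twice for a general kernel
-/

open MeasureTheory Set Filter Asymptotics Topology

namespace Pool.Agent.Helper68.BD

open Pool.Agent.Helper28.Eta (eta W W_one W_wt wt Good good_exp mellin_log_pow
  gamma_diff gamma_contDiffAt isOpen_rightHalf iteratedDeriv_iteratedDeriv' mup nu pw wt_eq
  measurable_pw integrable_pw ae_mup AA det_AA sum_range_fin det_cast andreief vdm det_pw
  ae_nu ae_nunu integrable_det_pw measurable_vdm)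

variable {κ : ℝ → ℝ} {F : ℂ → ℂ} {s : ℕ} {a : ℕ → ℝ} {C : ℝ}

theorem Ker.meas_right (h : Ker κ F s a C) (x : ℝ) : Measurable (ka κ x) :=
  h.meas.comp (measurable_prodMk_left (x := x))

theorem Ker.integrable_ka (h : Ker κ F s a C) {c : ℝ} (hc : 0 < c) (x : ℝ) (j : ℕ) :
    Integrable (fun y => ka κ x y * pw c j y) mup := by
  refine Integrable.mono' (((integrable_pw hc j).norm).const_mul (C * Real.exp (-x)))
    ((h.meas_right x).mul (measurable_pw c j)).aestronglyMeasurable ?_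
  filter_upwards [ae_mup] with y hy
  rw [norm_mul, Real.norm_eq_abs, norm_mul, Real.norm_eq_abs, Real.norm_eq_abs, Real.abs_exp]
  calc |ka κ x y| * |pw c j y| ≤ (C * (Real.exp (-x) * Real.exp (-y))) * |pw c j y| :=
        mul_le_mul_of_nonneg_right (h.ka_le x y) (abs_nonneg _)
    _ = _ := by ring

theorem Ker.integrable_ka2 (h : Ker κ F s a C) {c₁ c₂ : ℝ} (h₁ : 0 < c₁) (h₂ : 0 < c₂)
    (j k : ℕ) :
    Integrable (fun p : ℝ × ℝ => pw c₁ j p.1 * (ka κ p.1 p.2 * pw c₂ k p.2)) (mup.prod mup) := by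
  have h0 := ((integrable_pw h₁ j).mul_prod (integrable_pw h₂ k)).norm.const_mul C
  refine Integrable.mono' h0 ?_ ?_
  · exact (((measurable_pw c₁ j).comp measurable_fst).mul
      (h.meas.mul ((measurable_pw c₂ k).comp measurable_snd))).aestronglyMeasurable
  · refine Eventually.of_forall fun p => ?_
    rw [norm_mul, norm_mul, norm_mul, norm_mul, norm_mul, Real.norm_eq_abs, Real.norm_eq_abs,
      Real.norm_eq_abs, Real.norm_eq_abs, Real.norm_eq_abs, Real.abs_exp, Real.abs_exp]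
    calc |pw c₁ j p.1| * (|ka κ p.1 p.2| * |pw c₂ k p.2|)
        ≤ |pw c₁ j p.1| * ((C * (Real.exp (-p.1) * Real.exp (-p.2))) * |pw c₂ k p.2|) := by
          refine mul_le_mul_of_nonneg_left ?_ (abs_nonneg _)
          exact mul_le_mul_of_nonneg_right (h.ka_le _ _) (abs_nonneg _)
      _ = _ := by ring

/-- The moment matrix entries. -/
noncomputable def Nm (κ : ℝ → ℝ) (c₁ c₂ : ℝ) (j k : ℕ) : ℝ :=
  ∫ x, pw c₁ j x * ∫ y, ka κ x y * pw c₂ k y ∂mup ∂mup

theorem Ker.Nm_eq (h : Ker κ F s a C) {c₁ c₂ : ℝ} (h₁ : 0 < c₁) (h₂ : 0 < c₂) (j k : ℕ) :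
    ((Nm κ c₁ c₂ j k : ℝ) : ℂ) =
      ∑ l ∈ Finset.range (j + 1), ∑ i ∈ Finset.range (k + 1),
        ((j.choose l : ℂ) * iteratedDeriv (j - l) Complex.Gamma c₁) *
        iteratedDeriv (l + i) F ((c₁ : ℂ) + c₂) *
        ((k.choose i : ℂ) * iteratedDeriv (k - i) Complex.Gamma c₂) := by
  have h₁' : 0 < ((c₁ : ℂ)).re := by simpa using h₁
  have h₂' : 0 < ((c₂ : ℂ)).re := by simpa using h₂
  rw [← h.mellin_log_log_tr h₁' h₂' j k]
  unfold Nm mup
  rw [← integral_complex_ofReal]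
  refine setIntegral_congr_fun measurableSet_Ioi fun x hx => ?_
  rw [wt_eq j (Set.mem_Ioi.mp hx), Complex.ofReal_mul]
  congr 1
  unfold tr
  rw [← integral_complex_ofReal]
  refine setIntegral_congr_fun measurableSet_Ioi fun y hy => ?_
  rw [wt_eq k (Set.mem_Ioi.mp hy), Complex.ofReal_mul, mul_comm]

/-- The Hankel matrix. -/
noncomputable def HH (F : ℂ → ℂ) (n : ℕ) (c : ℂ) : Matrix (Fin n) (Fin n) ℂ :=
  Matrix.of fun j k => iteratedDeriv ((j : ℕ) + (k : ℕ)) F c

theorem Ker.Nm_matrix (h : Ker κ F s a C) {n : ℕ} {c₁ c₂ : ℝ} (h₁ : 0 < c₁) (h₂ : 0 < c₂) :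
    (Matrix.of fun j k : Fin n => ((Nm κ c₁ c₂ j k : ℝ) : ℂ)) =
      AA n c₁ * HH F n ((c₁ : ℂ) + c₂) * (AA n c₂).transpose := by
  ext j k
  rw [Matrix.of_apply, h.Nm_eq h₁ h₂, Matrix.mul_apply]
  simp only [Matrix.mul_apply, Matrix.transpose_apply, AA, HH, Matrix.of_apply]
  rw [Finset.sum_comm]
  rw [sum_range_fin k (fun i => ∑ l ∈ Finset.range ((j : ℕ) + 1),
        (((j : ℕ).choose l : ℂ) * iteratedDeriv ((j : ℕ) - l) Complex.Gamma c₁) *
        iteratedDeriv (l + i) F ((c₁ : ℂ) + c₂) *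
        (((k : ℕ).choose i : ℂ) * iteratedDeriv ((k : ℕ) - i) Complex.Gamma c₂))]
  · refine Finset.sum_congr rfl fun i _ => ?_
    rw [Finset.sum_mul, sum_range_fin j (fun l =>
        (((j : ℕ).choose l : ℂ) * iteratedDeriv ((j : ℕ) - l) Complex.Gamma c₁) *
        iteratedDeriv (l + (i : ℕ)) F ((c₁ : ℂ) + c₂) *
        (((k : ℕ).choose i : ℂ) * iteratedDeriv ((k : ℕ) - i) Complex.Gamma c₂))]
    intro l hl
    rw [Nat.choose_eq_zero_of_lt hl]
    simp
  · intro i hi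
    refine Finset.sum_eq_zero fun l _ => ?_
    rw [Nat.choose_eq_zero_of_lt hi]
    simp

/-- the signed integrand (same as in the module `Mellin`) -/
noncomputable def sint' (κ : ℝ → ℝ) (c₁ c₂ : ℝ) {N : ℕ} (u v : Fin N → ℝ) : ℝ :=
  vdm (fun i => Real.log (u i)) * vdm (fun i => Real.log (v i)) *
    (∏ i, u i ^ (c₁ - 1)) * (∏ i, v i ^ (c₂ - 1)) *
    (Matrix.of fun i j => ka κ (u i) (v j)).det

theorem three_det {n : ℕ} (κ : ℝ → ℝ) (c₁ c₂ : ℝ) (x y : Fin n → ℝ) :
    (Matrix.of fun i k : Fin n => pw c₁ i (x k)).det *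
      ((Matrix.of fun i k : Fin n => ka κ (x i) (y k)).det *
      (Matrix.of fun i k : Fin n => pw c₂ i (y k)).det) = sint' κ c₁ c₂ x y := by
  rw [det_pw, det_pw]
  unfold sint'
  ring

theorem Ker.det_Nm (h : Ker κ F s a C) {n : ℕ} {c₁ c₂ : ℝ} (h₁ : 0 < c₁) (h₂ : 0 < c₂) :
    (n.factorial : ℝ) * (n.factorial : ℝ) * (Matrix.of fun j k : Fin n => Nm κ c₁ c₂ j k).det =
      ∫ x, ∫ y, sint' κ c₁ c₂ x y ∂(nu n) ∂(nu n) := by
  have hint1 : ∀ i j : Fin n,
      Integrable (fun x => pw c₁ i x * ∫ y, ka κ x y * pw c₂ j y ∂mup) mup := by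
    intro i j
    have h := (h.integrable_ka2 h₁ h₂ (i : ℕ) (j : ℕ)).integral_prod_left
    refine h.congr (Filter.Eventually.of_forall fun x => ?_)
    simp only
    rw [integral_const_mul]
  have h1 := andreief mup (fun (i : Fin n) x => pw c₁ i x)
    (fun (j : Fin n) x => ∫ y, ka κ x y * pw c₂ j y ∂mup) hint1
  have h2 : ∀ x : Fin n → ℝ,
      (n.factorial : ℝ) * (Matrix.of fun i k : Fin n => ∫ y, ka κ (x k) y * pw c₂ i y ∂mup).det =
      ∫ y, (Matrix.of fun i k : Fin n => ka κ (x i) (y k)).det *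
      (Matrix.of fun i k : Fin n => pw c₂ i (y k)).det ∂(nu n) := by
    intro x
    have h3 := andreief mup (fun (i : Fin n) y => ka κ (x i) y) (fun (j : Fin n) y => pw c₂ j y)
      (fun i j => h.integrable_ka h₂ (x i) j)
    rw [nu, h3]
    congr 1
    rw [← Matrix.det_transpose]
    rfl
  have h4 : (n.factorial : ℝ) * ∫ x, (Matrix.of fun i k : Fin n => pw c₁ i (x k)).det *
      (Matrix.of fun i k : Fin n => ∫ y, ka κ (x k) y * pw c₂ i y ∂mup).det ∂(nu n) =
      ∫ x, ∫ y, sint' κ c₁ c₂ x y ∂(nu n) ∂(nu n) := by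
    rw [← integral_const_mul]
    refine integral_congr_ae (Eventually.of_forall fun x => ?_)
    have h5 := h2 x
    calc (n.factorial : ℝ) * ((Matrix.of fun i k : Fin n => pw c₁ i (x k)).det *
          (Matrix.of fun i k : Fin n => ∫ y, ka κ (x k) y * pw c₂ i y ∂mup).det)
        = (Matrix.of fun i k : Fin n => pw c₁ i (x k)).det * ((n.factorial : ℝ) *
          (Matrix.of fun i k : Fin n => ∫ y, ka κ (x k) y * pw c₂ i y ∂mup).det) := by ring
      _ = ∫ y, (Matrix.of fun i k : Fin n => pw c₁ i (x k)).det *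
          ((Matrix.of fun i k : Fin n => ka κ (x i) (y k)).det *
          (Matrix.of fun i k : Fin n => pw c₂ i (y k)).det) ∂(nu n) := by
          rw [h5, integral_const_mul]
      _ = _ := by
          simp_rw [three_det]
  rw [mul_assoc]
  have h6 : (n.factorial : ℝ) * (Matrix.of fun j k : Fin n => Nm κ c₁ c₂ j k).det =
      ∫ x, (Matrix.of fun i k : Fin n => pw c₁ i (x k)).det *
      (Matrix.of fun i k : Fin n => ∫ y, ka κ (x k) y * pw c₂ i y ∂mup).det ∂(nu n) := by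
    rw [nu, h1]
    rfl
  rw [h6, h4]

theorem Ker.measurable_sint (h : Ker κ F s a C) {n : ℕ} (c₁ c₂ : ℝ) :
    Measurable (fun p : (Fin n → ℝ) × (Fin n → ℝ) => sint' κ c₁ c₂ p.1 p.2) := by
  have hP : ∀ c : ℝ, Measurable (fun x : Fin n → ℝ => ∏ i, x i ^ (c - 1)) := fun c =>
    Finset.measurable_prod _ fun i _ => (measurable_pi_apply i).pow_const _
  have hV : Measurable (fun x : Fin n → ℝ => vdm (fun i => Real.log (x i))) :=
    measurable_vdm Real.measurable_log
  have hD : Measurable (fun p : (Fin n → ℝ) × (Fin n → ℝ) =>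
      (Matrix.of fun i j => ka κ (p.1 i) (p.2 j)).det) := by
    simp only [Matrix.det_apply']
    refine Finset.measurable_sum _ fun σ _ => Measurable.const_mul ?_ _
    refine Finset.measurable_prod _ fun i _ => ?_
    simp only [Matrix.of_apply]
    have hh : Measurable (fun p : (Fin n → ℝ) × (Fin n → ℝ) => (p.1 (σ i), p.2 i)) :=
      ((measurable_pi_apply _).comp measurable_fst).prodMk
        ((measurable_pi_apply _).comp measurable_snd)
    exact h.meas.comp hh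
  unfold sint'
  exact ((((hV.comp measurable_fst).mul (hV.comp measurable_snd)).mul
    ((hP c₁).comp measurable_fst)).mul ((hP c₂).comp measurable_snd)).mul hD

theorem Ker.det_ka_le (h : Ker κ F s a C) {n : ℕ} (x y : Fin n → ℝ) :
    |(Matrix.of fun i k : Fin n => ka κ (x i) (y k)).det| ≤
      (n.factorial : ℝ) * C ^ n * ((∏ i, Real.exp (-x i)) * (∏ i, Real.exp (-y i))) := by
  rw [Matrix.det_apply']
  refine (Finset.abs_sum_le_sum_abs _ _).trans ?_
  have h1 : ∀ σ : Equiv.Perm (Fin n), |((Equiv.Perm.sign σ : ℤ) : ℝ) *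
      ∏ i, (Matrix.of fun i k : Fin n => ka κ (x i) (y k)) (σ i) i| ≤
      C ^ n * ((∏ i, Real.exp (-x i)) * (∏ i, Real.exp (-y i))) := by
    intro σ
    have hs : |((Equiv.Perm.sign σ : ℤ) : ℝ)| = 1 := by
      rcases Int.units_eq_one_or (Equiv.Perm.sign σ) with h | h <;> simp [h]
    have hCn : C ^ n = ∏ _i : Fin n, C := by simp
    rw [abs_mul, hs, one_mul, Finset.abs_prod, ← Equiv.prod_comp σ (fun i => Real.exp (-x i)),
      ← Finset.prod_mul_distrib, hCn, ← Finset.prod_mul_distrib]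
    refine Finset.prod_le_prod (fun i _ => abs_nonneg _) fun i _ => ?_
    rw [Matrix.of_apply]
    exact h.ka_le _ _
  calc _ ≤ ∑ _σ : Equiv.Perm (Fin n),
        C ^ n * ((∏ i, Real.exp (-x i)) * (∏ i, Real.exp (-y i))) :=
        Finset.sum_le_sum fun σ _ => h1 σ
    _ = _ := by
        rw [Finset.sum_const, Finset.card_univ, Fintype.card_perm, Fintype.card_fin, nsmul_eq_mul]
        ring

theorem Ker.integrable_sint (h : Ker κ F s a C) {n : ℕ} {c₁ c₂ : ℝ} (h₁ : 0 < c₁)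
    (h₂ : 0 < c₂) :
    Integrable (fun p : (Fin n → ℝ) × (Fin n → ℝ) => sint' κ c₁ c₂ p.1 p.2)
      ((nu n).prod (nu n)) := by
  have h1 := ((integrable_det_pw (n := n) h₁).mul_prod
    (integrable_det_pw (n := n) h₂)).norm.const_mul ((n.factorial : ℝ) * C ^ n)
  refine Integrable.mono' h1 (h.measurable_sint c₁ c₂).aestronglyMeasurable ?_
  filter_upwards [ae_nunu n] with p hp
  have h2 := three_det κ c₁ c₂ p.1 p.2
  have h3 : |sint' κ c₁ c₂ p.1 p.2| =
      |(Matrix.of fun i k : Fin n => pw c₁ i (p.1 k)).det| *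
      (|(Matrix.of fun i k : Fin n => ka κ (p.1 i) (p.2 k)).det| *
      |(Matrix.of fun i k : Fin n => pw c₂ i (p.2 k)).det|) := by
    rw [← abs_mul, ← abs_mul, h2]
  rw [Real.norm_eq_abs, h3, norm_mul, norm_mul, norm_mul, Real.norm_eq_abs, Real.norm_eq_abs,
    Real.norm_eq_abs, Real.norm_eq_abs,
    abs_of_pos (Finset.prod_pos fun i _ => Real.exp_pos (-p.1 i)),
    abs_of_pos (Finset.prod_pos fun i _ => Real.exp_pos (-p.2 i))]
  calc |(Matrix.of fun i k : Fin n => pw c₁ i (p.1 k)).det| *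
      (|(Matrix.of fun i k : Fin n => ka κ (p.1 i) (p.2 k)).det| *
      |(Matrix.of fun i k : Fin n => pw c₂ i (p.2 k)).det|)
      ≤ |(Matrix.of fun i k : Fin n => pw c₁ i (p.1 k)).det| *
      (((n.factorial : ℝ) * C ^ n * ((∏ i, Real.exp (-p.1 i)) * (∏ i, Real.exp (-p.2 i)))) *
      |(Matrix.of fun i k : Fin n => pw c₂ i (p.2 k)).det|) := by
        refine mul_le_mul_of_nonneg_left ?_ (abs_nonneg _)
        exact mul_le_mul_of_nonneg_right (h.det_ka_le _ _) (abs_nonneg _)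
    _ = _ := by ring

/-- The Hankel determinant as a double integral. -/
theorem Ker.hankel (h : Ker κ F s a C) {n : ℕ} {c₁ c₂ : ℝ} (h₁ : 0 < c₁) (h₂ : 0 < c₂) :
    (HH F n ((c₁ : ℂ) + c₂)).det *
        ((Complex.Gamma c₁ * Complex.Gamma c₂) ^ n * (n.factorial : ℂ) ^ 2) =
      ((∫ p, sint' κ c₁ c₂ p.1 p.2 ∂((nu n).prod (nu n)) : ℝ) : ℂ) := by
  rw [integral_prod _ (h.integrable_sint h₁ h₂), ← h.det_Nm h₁ h₂, Complex.ofReal_mul, det_cast,
    h.Nm_matrix h₁ h₂, Matrix.det_mul, Matrix.det_mul, Matrix.det_transpose, det_AA, det_AA,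
    mul_pow]
  push_cast
  ring

end Pool.Agent.Helper68.BD
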