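import Pool.Agent.Helper28.EtaFinal

/-!
# Double Mellin transforms for a general kernel `κ(e^{-(x+y)})`
-/

open MeasureTheory Set Filter Asymptotics Topology

namespace Pool.Agent.Helper68.BD

open Pool.Agent.Helper28.Eta (eta W W_one W_wt wt Good good_exp integrable_two mellin_log_pow
  gamma_diff gamma_contDiffAt isOpen_rightHalf iteratedDeriv_iteratedDeriv' mup nu pw wt_eq
  measurable_pw integrable_pw ae_mup AA det_AA sum_range_fin det_cast andreief vdm det_pw)

/-- A kernel `κ(w) = ∑ a_n w^(n+1)` together with the entire function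
`F(z) = ∑ a_n (n+1)^(-z)`. -/
structure Ker (κ : ℝ → ℝ) (F : ℂ → ℂ) (s : ℕ) (a : ℕ → ℝ) (C : ℝ) : Prop where
  hF : Differentiable ℂ F
  hm : Measurable κ
  hC : 0 < C
  hb : ∀ w, 0 < w → |κ w| ≤ C * w
  ha : ∀ n, |a n| ≤ C * ((n : ℝ) + 1) ^ s
  hs : ∀ w, 0 < w → w < 1 → HasSum (fun n => a n * w ^ (n + 1)) (κ w)
  hFs : ∀ z : ℂ, (s : ℝ) + 1 < z.re → HasSum (fun n => (a n : ℂ) / ((n : ℂ) + 1) ^ z) (F z)

/-- the kernel in additive form -/
noncomputable def ka (κ : ℝ → ℝ) (x y : ℝ) : ℝ := κ (Real.exp (-x) * Real.exp (-y))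

theorem ka_comm (κ : ℝ → ℝ) (x y : ℝ) : ka κ x y = ka κ y x := by
  unfold ka; rw [mul_comm]

variable {κ : ℝ → ℝ} {F : ℂ → ℂ} {s : ℕ} {a : ℕ → ℝ} {C : ℝ}

theorem Ker.ka_le (h : Ker κ F s a C) (x y : ℝ) :
    |ka κ x y| ≤ C * (Real.exp (-x) * Real.exp (-y)) :=
  h.hb _ (by positivity)

theorem Ker.meas (h : Ker κ F s a C) : Measurable (Function.uncurry (ka κ)) := by
  have h1 : Measurable (fun p : ℝ × ℝ => Real.exp (-p.1) * Real.exp (-p.2)) := by fun_prop
  exact h.hm.comp h1

theorem Ker.integrable_two (h : Ker κ F s a C) {u v : ℝ → ℂ} (hu : W u) (hv : W v) :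
    Integrable (fun p : ℝ × ℝ => u p.1 * v p.2 * (ka κ p.1 p.2 : ℂ))
      ((volume.restrict (Ioi 0)).prod (volume.restrict (Ioi 0))) := by
  have h1 := (Pool.Agent.Helper28.Eta.integrable_two hu hv (K := fun x y => ka κ x y / C)
    (h.meas.div_const C) (fun x y => by
      rw [abs_div, abs_of_pos h.hC, div_le_iff₀ h.hC, mul_comm _ C]
      exact h.ka_le x y)).mul_const (C : ℂ)
  refine h1.congr (Eventually.of_forall fun p => ?_)
  have hC : (C : ℂ) ≠ 0 := by exact_mod_cast h.hC.ne'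
  simp only [Complex.ofReal_div]
  field_simp

/-- The transform `x ↦ ∫ v(y) κ(e^{-(x+y)}) dy`. -/
noncomputable def tr (κ : ℝ → ℝ) (v : ℝ → ℂ) (x : ℝ) : ℂ :=
  ∫ y in Ioi (0 : ℝ), v y * (ka κ x y : ℂ)

theorem Ker.good_tr (h : Ker κ F s a C) {v : ℝ → ℂ} (hv : W v) : Good (tr κ v) := by
  have h1 := (h.integrable_two W_one hv).integral_prod_left
  simp only [one_mul] at h1
  refine Good.of_bound (C := C * ∫ y in Ioi (0:ℝ), ‖v y * (Real.exp (-y) : ℂ)‖) h1 fun x _ => ?_
  have h2 : ∀ y, ‖v y * (ka κ x y : ℂ)‖ ≤ C * Real.exp (-x) * ‖v y * (Real.exp (-y) : ℂ)‖ := by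
    intro y
    rw [norm_mul, norm_mul, Complex.norm_real, Complex.norm_real, Real.norm_eq_abs,
      Real.norm_eq_abs, Real.abs_exp]
    calc ‖v y‖ * |ka κ x y| ≤ ‖v y‖ * (C * (Real.exp (-x) * Real.exp (-y))) := by
          gcongr; exact h.ka_le x y
      _ = _ := by ring
  calc ‖tr κ v x‖ ≤ ∫ y in Ioi (0:ℝ), C * Real.exp (-x) * ‖v y * (Real.exp (-y) : ℂ)‖ :=
        norm_integral_le_of_norm_le (hv.norm.const_mul _) (Eventually.of_forall h2)
    _ = _ := by rw [integral_const_mul]; ring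

theorem Ker.tr_swap (h : Ker κ F s a C) {u v : ℝ → ℂ} (hu : W u) (hv : W v) :
    ∫ x in Ioi (0 : ℝ), u x * tr κ v x = ∫ y in Ioi (0 : ℝ), v y * tr κ u y := by
  have h1 := h.integrable_two hu hv
  have h2 := integral_integral_swap (f := fun x y => u x * v y * (ka κ x y : ℂ)) h1
  calc ∫ x in Ioi (0 : ℝ), u x * tr κ v x
      = ∫ x in Ioi (0 : ℝ), ∫ y in Ioi (0 : ℝ), u x * v y * (ka κ x y : ℂ) := by
        congr 1; funext x
        unfold tr
        rw [← integral_const_mul]
        congr 1; funext y; ring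
    _ = ∫ y in Ioi (0 : ℝ), ∫ x in Ioi (0 : ℝ), u x * v y * (ka κ x y : ℂ) := h2
    _ = ∫ y in Ioi (0 : ℝ), v y * tr κ u y := by
        congr 1; funext y
        unfold tr
        rw [← integral_const_mul]
        congr 1; funext x
        rw [ka_comm κ x y]; ring

theorem Ker.ka_hasSum (h : Ker κ F s a C) {x y : ℝ} (hxy : 0 < x + y) :
    HasSum (fun n : ℕ => a n * Real.exp (-((n : ℝ) + 1) * (x + y))) (ka κ x y) := by
  have hw : Real.exp (-x) * Real.exp (-y) = Real.exp (-(x + y)) := by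
    rw [← Real.exp_add]; congr 1; ring
  have h1 := h.hs (Real.exp (-x) * Real.exp (-y)) (by positivity) (by
    rw [hw]; exact Real.exp_lt_one_iff.mpr (by linarith))
  refine h1.congr_fun fun n => ?_
  rw [hw, ← Real.exp_nat_mul]
  congr 2
  push_cast
  ring

/-- the bound on the coefficients gives summability with exponential weights -/
theorem Ker.summable_exp (h : Ker κ F s a C) {y : ℝ} (hy : 0 < y) :
    Summable (fun n : ℕ => |a n| * Real.exp (-((n : ℝ) + 1) * y)) := by
  have hr : ‖Real.exp (-y)‖ < 1 := by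
    rw [Real.norm_eq_abs, Real.abs_exp]
    exact Real.exp_lt_one_iff.mpr (by linarith)
  have h1 := summable_norm_pow_mul_geometric_of_norm_lt_one s hr
  have h2 := (summable_nat_add_iff 1).mpr h1
  refine Summable.of_nonneg_of_le (fun n => by positivity) (fun n => ?_) (h2.mul_left C)
  have h3 : Real.exp (-((n : ℝ) + 1) * y) = Real.exp (-y) ^ (n + 1) := by
    rw [← Real.exp_nat_mul]
    congr 1
    push_cast
    ring
  have h4 : ‖(((n + 1 : ℕ) : ℝ)) ^ s * Real.exp (-y) ^ (n + 1)‖ =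
      ((n : ℝ) + 1) ^ s * Real.exp (-y) ^ (n + 1) := by
    rw [Real.norm_eq_abs, abs_of_nonneg (by positivity)]
    push_cast
    rfl
  rw [h3, h4]
  calc |a n| * Real.exp (-y) ^ (n + 1) ≤ (C * ((n : ℝ) + 1) ^ s) * Real.exp (-y) ^ (n + 1) := by
        gcongr; exact h.ha n
    _ = _ := by ring

theorem norm_cpow_succ (n : ℕ) (z : ℂ) : ‖((n : ℂ) + 1) ^ z‖ = ((n : ℝ) + 1) ^ z.re := by
  have hn : (0:ℝ) < (n : ℝ) + 1 := by positivity
  have : ((n : ℂ) + 1) = (((n : ℝ) + 1 : ℝ) : ℂ) := by push_cast; rfl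
  rw [this, Complex.norm_cpow_eq_rpow_re_of_pos hn]

theorem Ker.tr_wt_zero_hasSum (h : Ker κ F s a C) {z : ℂ} (hz : 0 < z.re) {y : ℝ} (hy : 0 < y) :
    HasSum (fun n : ℕ => Complex.Gamma z * (a n : ℂ) / ((n : ℂ) + 1) ^ z *
      (Real.exp (-((n : ℝ) + 1) * y) : ℂ)) (tr κ (wt z 0) y) := by
  have h0 := hasSum_mellin (ι := ℕ) (a := fun n => (a n : ℂ) * (Real.exp (-((n : ℝ) + 1) * y) : ℂ))
    (p := fun n => (n : ℝ) + 1) (F := fun x => (ka κ y x : ℂ)) (s := z)
    (fun i => Or.inr (by positivity)) hz (fun t ht => ?_) ?_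
  · have h2 : mellin (fun x => (ka κ y x : ℂ)) z = tr κ (wt z 0) y := by
      unfold mellin tr wt
      simp
    rw [h2] at h0
    refine h0.congr_fun fun n => ?_
    push_cast
    ring
  · have h1 := h.ka_hasSum (x := y) (y := t) (by have := mem_Ioi.mp ht; linarith)
    have h2 := Complex.hasSum_ofReal.mpr h1
    refine h2.congr_fun fun n => ?_
    rw [mul_add, Real.exp_add]
    push_cast
    ring
  · refine Summable.of_nonneg_of_le (fun n => by positivity) (fun n => ?_) (h.summable_exp hy)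
    rw [norm_mul, Complex.norm_real, Complex.norm_real, Real.norm_eq_abs,
      Real.norm_eq_abs, Real.abs_exp]
    refine div_le_self (by positivity) ?_
    exact Real.one_le_rpow (by linarith [(Nat.cast_nonneg n : (0:ℝ) ≤ n)]) hz.le

theorem Ker.summable_pow (h : Ker κ F s a C) {t : ℝ} (ht : (s : ℝ) + 1 < t) :
    Summable (fun n : ℕ => |a n| / ((n : ℝ) + 1) ^ t) := by
  have h1 : Summable (fun n : ℕ => C * (1 / ((n : ℝ) + 1) ^ (t - s))) := by
    refine Summable.mul_left _ ?_
    have := (summable_nat_add_iff 1).mpr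
      (Real.summable_one_div_nat_rpow.mpr (show 1 < t - s by linarith))
    refine this.congr fun n => ?_
    push_cast; rfl
  refine Summable.of_nonneg_of_le (fun n => by positivity) (fun n => ?_) h1
  have hn : (0:ℝ) < (n : ℝ) + 1 := by positivity
  rw [Real.rpow_sub hn, Real.rpow_natCast]
  have h2 := h.ha n
  have h3 : 0 < ((n : ℝ) + 1) ^ t := Real.rpow_pos_of_pos hn t
  rw [one_div_div, ← mul_div_assoc]
  gcongr

/-- Base identity in the half plane of absolute convergence. -/
theorem Ker.mellin_tr_of_lt (h : Ker κ F s a C) {z t : ℂ} (hz : 0 < z.re)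
    (ht : (s : ℝ) + 1 < t.re) :
    mellin (tr κ (wt z 0)) t = Complex.Gamma z * Complex.Gamma t * F (z + t) := by
  have ht0 : 0 < t.re := by
    have : (0 : ℝ) ≤ s := Nat.cast_nonneg s
    linarith
  have h0 := hasSum_mellin (ι := ℕ) (a := fun n => Complex.Gamma z * (a n : ℂ) / ((n : ℂ) + 1) ^ z)
    (p := fun n => (n : ℝ) + 1) (F := tr κ (wt z 0)) (s := t)
    (fun i => Or.inr (by positivity)) ht0
    (fun y hy => h.tr_wt_zero_hasSum hz (mem_Ioi.mp hy)) ?_
  · have h2 := (h.hFs (z + t) (by rw [Complex.add_re]; linarith)).mul_left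
      (Complex.Gamma z * Complex.Gamma t)
    refine h0.unique ?_
    refine h2.congr_fun fun n => ?_
    have hn : ((n : ℂ) + 1) ≠ 0 := by exact_mod_cast Nat.succ_ne_zero n
    rw [Complex.cpow_add _ _ hn]
    push_cast
    field_simp
  · refine Summable.of_nonneg_of_le (fun n => by positivity) (fun n => ?_)
      ((h.summable_pow ht).mul_left ‖Complex.Gamma z‖)
    have hn : (0:ℝ) < (n : ℝ) + 1 := by positivity
    rw [norm_div, norm_mul, norm_cpow_succ, Complex.norm_real, Real.norm_eq_abs, div_div,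
      ← mul_div_assoc]
    have h4 : 1 ≤ ((n : ℝ) + 1) ^ z.re :=
      Real.one_le_rpow (by linarith [(Nat.cast_nonneg n : (0:ℝ) ≤ n)]) hz.le
    have h5 : 0 < ((n : ℝ) + 1) ^ t.re := Real.rpow_pos_of_pos hn t.re
    gcongr
    nlinarith

theorem Ker.contDiff (h : Ker κ F s a C) {n : WithTop ℕ∞} : ContDiff ℂ n F := h.hF.contDiff

theorem iter_differentiable (hF : Differentiable ℂ F) (k : ℕ) :
    Differentiable ℂ (iteratedDeriv k F) := by
  rw [iteratedDeriv_eq_iterate]
  induction k with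
  | zero => simpa using hF
  | succ k ih =>
    rw [Function.iterate_succ_apply']
    exact ih.contDiff.differentiable_deriv_two

theorem Ker.mellin_tr (h : Ker κ F s a C) {z t : ℂ} (hz : 0 < z.re) (ht : 0 < t.re) :
    mellin (tr κ (wt z 0)) t = Complex.Gamma z * Complex.Gamma t * F (z + t) := by
  have hW : W (wt z 0) := W_wt hz 0
  have h1 : AnalyticOnNhd ℂ (mellin (tr κ (wt z 0))) {s : ℂ | 0 < s.re} := by
    refine DifferentiableOn.analyticOnNhd (fun s hs => ?_) isOpen_rightHalf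
    exact ((h.good_tr hW).differentiableAt_mellin hs).differentiableWithinAt
  have h2 : AnalyticOnNhd ℂ (fun t => Complex.Gamma z * Complex.Gamma t * F (z + t))
      {s : ℂ | 0 < s.re} := by
    refine DifferentiableOn.analyticOnNhd (fun s hs => ?_) isOpen_rightHalf
    have h3 : DifferentiableAt ℂ (fun t => Complex.Gamma z * Complex.Gamma t * F (z + t)) s :=
      ((gamma_diff hs).const_mul _).mul
        ((h.hF (z + s)).comp s ((differentiableAt_id).const_add z))
    exact h3.differentiableWithinAt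
  have hconv : Convex ℝ {s : ℂ | 0 < s.re} := convex_halfSpace_re_gt 0
  have hs0 : (0 : ℝ) ≤ s := Nat.cast_nonneg s
  have hmem : (((s : ℝ) + 2 : ℝ) : ℂ) ∈ {w : ℂ | (s : ℝ) + 1 < w.re} := by
    simp only [mem_ofPred_eq, Complex.ofReal_re]; linarith
  have h4 : mellin (tr κ (wt z 0)) =ᶠ[𝓝 (((s : ℝ) + 2 : ℝ) : ℂ)]
      (fun t => Complex.Gamma z * Complex.Gamma t * F (z + t)) := by
    have hopen : IsOpen {w : ℂ | (s : ℝ) + 1 < w.re} :=
      isOpen_lt continuous_const Complex.continuous_re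
    filter_upwards [hopen.mem_nhds hmem] with w hw
    exact h.mellin_tr_of_lt hz hw
  exact h1.eqOn_of_preconnected_of_eventuallyEq h2 hconv.isPreconnected
    (show (((s : ℝ) + 2 : ℝ) : ℂ) ∈ {s : ℂ | 0 < s.re} by
      simp only [mem_ofPred_eq, Complex.ofReal_re]; linarith) h4 ht

/-- one variable Mellin transform -/
theorem Ker.mellin_one (h : Ker κ F s a C) {z : ℂ} (hz : 0 < z.re) :
    mellin (fun u : ℝ => ((κ (Real.exp (-u)) : ℝ) : ℂ)) z = Complex.Gamma z * F z := by
  have hmeas : Measurable (fun u : ℝ => ((κ (Real.exp (-u)) : ℝ) : ℂ)) := by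
    have := h.hm
    fun_prop
  have hbd : ∀ x : ℝ, ‖((κ (Real.exp (-x)) : ℝ) : ℂ)‖ ≤ C * Real.exp (-x) := by
    intro x
    rw [Complex.norm_real, Real.norm_eq_abs]
    exact h.hb _ (Real.exp_pos _)
  have hgood : Good (fun u : ℝ => ((κ (Real.exp (-u)) : ℝ) : ℂ)) := by
    refine Good.of_bound (C := C) ?_ fun x _ => hbd x
    exact Integrable.mono' ((integrableOn_exp_neg_Ioi 0).const_mul C) hmeas.aestronglyMeasurable
      (Eventually.of_forall hbd)
  have h1 : AnalyticOnNhd ℂ (mellin (fun u : ℝ => ((κ (Real.exp (-u)) : ℝ) : ℂ)))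
      {s : ℂ | 0 < s.re} := by
    refine DifferentiableOn.analyticOnNhd (fun s hs => ?_) isOpen_rightHalf
    exact (hgood.differentiableAt_mellin hs).differentiableWithinAt
  have h2 : AnalyticOnNhd ℂ (fun t => Complex.Gamma t * F t) {s : ℂ | 0 < s.re} := by
    refine DifferentiableOn.analyticOnNhd (fun s hs => ?_) isOpen_rightHalf
    exact ((gamma_diff hs).mul (h.hF s)).differentiableWithinAt
  have hconv : Convex ℝ {s : ℂ | 0 < s.re} := convex_halfSpace_re_gt 0
  have hs0 : (0 : ℝ) ≤ s := Nat.cast_nonneg s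
  have hmem : (((s : ℝ) + 2 : ℝ) : ℂ) ∈ {w : ℂ | (s : ℝ) + 1 < w.re} := by
    simp only [mem_ofPred_eq, Complex.ofReal_re]; linarith
  have h4 : mellin (fun u : ℝ => ((κ (Real.exp (-u)) : ℝ) : ℂ)) =ᶠ[𝓝 (((s : ℝ) + 2 : ℝ) : ℂ)]
      (fun t => Complex.Gamma t * F t) := by
    have hopen : IsOpen {w : ℂ | (s : ℝ) + 1 < w.re} :=
      isOpen_lt continuous_const Complex.continuous_re
    filter_upwards [hopen.mem_nhds hmem] with w hw
    have hw0 : 0 < w.re := by
      have : (s : ℝ) + 1 < w.re := hw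
      linarith
    have h5 := hasSum_mellin (ι := ℕ) (a := fun n => (a n : ℂ))
      (p := fun n => (n : ℝ) + 1) (F := (fun u : ℝ => ((κ (Real.exp (-u)) : ℝ) : ℂ))) (s := w)
      (fun i => Or.inr (by positivity)) hw0 (fun t ht => ?_) ?_
    · have h6 := (h.hFs w hw).mul_left (Complex.Gamma w)
      refine h5.unique ?_
      refine h6.congr_fun fun n => ?_
      push_cast
      ring
    · have ht0 : 0 < t := mem_Ioi.mp ht
      have h7 := h.hs (Real.exp (-t)) (Real.exp_pos _) (Real.exp_lt_one_iff.mpr (by linarith))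
      refine (Complex.hasSum_ofReal.mpr h7).congr_fun fun n => ?_
      rw [← Real.exp_nat_mul]
      push_cast
      congr 2
      ring
    · refine (h.summable_pow hw).congr fun n => ?_
      rw [Complex.norm_real, Real.norm_eq_abs]
  exact h1.eqOn_of_preconnected_of_eventuallyEq h2 hconv.isPreconnected
    (show (((s : ℝ) + 2 : ℝ) : ℂ) ∈ {s : ℂ | 0 < s.re} by
      simp only [mem_ofPred_eq, Complex.ofReal_re]; linarith) h4 hz

/-- First differentiation. -/
theorem Ker.mellin_log_tr (h : Ker κ F s a C) {z t : ℂ} (hz : 0 < z.re) (ht : 0 < t.re) (k : ℕ) :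
    mellin (tr κ (wt t k)) z = Complex.Gamma z *
      ∑ i ∈ Finset.range (k + 1), (k.choose i : ℂ) * iteratedDeriv i F (z + t) *
        iteratedDeriv (k - i) Complex.Gamma t := by
  have hWz : W (wt z 0) := W_wt hz 0
  have hWt : W (wt t k) := W_wt ht k
  have h1 := (h.good_tr hWz).iteratedDeriv_mellin k ht
  have h2 : iteratedDeriv k (mellin (tr κ (wt z 0))) t =
      iteratedDeriv k (fun t => Complex.Gamma z * (F (z + t) * Complex.Gamma t)) t := by
    refine Filter.EventuallyEq.iteratedDeriv_eq k ?_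
    filter_upwards [isOpen_rightHalf.mem_nhds ht] with w hw
    rw [h.mellin_tr hz hw]; ring
  have h3 : mellin (fun t => Real.log t ^ k • tr κ (wt z 0) t) t = mellin (tr κ (wt t k)) z := by
    rw [mellin_log_pow, h.tr_swap hWt hWz]
    have := mellin_log_pow (tr κ (wt t k)) z 0
    simp only [pow_zero, one_smul] at this
    exact this.symm
  rw [← h3, ← h1, h2, iteratedDeriv_const_mul_field]
  congr 1
  rw [iteratedDeriv_fun_mul (n := k) (f := fun t => F (z + t))
    (h.contDiff.contDiffAt.comp t (contDiffAt_const.add contDiffAt_id)) (gamma_contDiffAt ht)]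
  refine Finset.sum_congr rfl fun i _ => ?_
  rw [iteratedDeriv_comp_const_add]

/-- Second differentiation. -/
theorem Ker.mellin_log_log_tr (h : Ker κ F s a C) {z t : ℂ} (hz : 0 < z.re) (ht : 0 < t.re)
    (j k : ℕ) :
    ∫ x in Ioi (0:ℝ), wt z j x * tr κ (wt t k) x =
      ∑ l ∈ Finset.range (j + 1), ∑ i ∈ Finset.range (k + 1),
        ((j.choose l : ℂ) * iteratedDeriv (j - l) Complex.Gamma z) *
        iteratedDeriv (l + i) F (z + t) *
        ((k.choose i : ℂ) * iteratedDeriv (k - i) Complex.Gamma t) := by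
  have hWt : W (wt t k) := W_wt ht k
  have h1 := (h.good_tr hWt).iteratedDeriv_mellin j hz
  have h2 : iteratedDeriv j (mellin (tr κ (wt t k))) z =
      iteratedDeriv j (fun z => (∑ i ∈ Finset.range (k + 1),
        ((k.choose i : ℂ) * iteratedDeriv (k - i) Complex.Gamma t) *
          iteratedDeriv i F (z + t)) * Complex.Gamma z) z := by
    refine Filter.EventuallyEq.iteratedDeriv_eq j ?_
    filter_upwards [isOpen_rightHalf.mem_nhds hz] with w hw
    rw [h.mellin_log_tr hw ht, mul_comm]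
    congr 1
    refine Finset.sum_congr rfl fun i _ => ?_
    ring
  rw [← mellin_log_pow, ← h1, h2]
  have hg : ∀ i, ContDiff ℂ j (fun z => ((k.choose i : ℂ) * iteratedDeriv (k - i) Complex.Gamma t) *
          iteratedDeriv i F (z + t)) := fun i =>
    contDiff_const.mul ((iter_differentiable h.hF i).contDiff.comp (contDiff_id.add contDiff_const))
  rw [iteratedDeriv_fun_mul (n := j)
    (ContDiff.contDiffAt (ContDiff.sum fun i _ => hg i)) (gamma_contDiffAt hz)]
  refine Finset.sum_congr rfl fun l hl => ?_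
  have h5 : iteratedDeriv l (fun z => ∑ i ∈ Finset.range (k + 1),
        ((k.choose i : ℂ) * iteratedDeriv (k - i) Complex.Gamma t) *
          iteratedDeriv i F (z + t)) z =
      ∑ i ∈ Finset.range (k + 1), ((k.choose i : ℂ) * iteratedDeriv (k - i) Complex.Gamma t) *
        iteratedDeriv (l + i) F (z + t) := by
    rw [iteratedDeriv_fun_sum (fun i _ => ((hg i).of_le (by
      have := Finset.mem_range.mp hl
      exact_mod_cast Nat.lt_succ_iff.mp this)).contDiffAt)]
    refine Finset.sum_congr rfl fun i _ => ?_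
    rw [iteratedDeriv_const_mul_field, iteratedDeriv_comp_add_const,
      iteratedDeriv_iteratedDeriv']
  rw [h5, Finset.mul_sum, Finset.sum_mul]
  refine Finset.sum_congr rfl fun i _ => ?_
  ring

end Pool.Agent.Helper68.BD
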